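import Mathlib

set_option autoImplicit false

/-!
# MP_cc6bdf_an: definitions used in the statement

Hausdorff approximation of plane continua by piecewise monotone curves.
-/

namespace Pool.Agent.W_MP_cc6bdf_an

open Set

/-- `M_n`: the continuous real functions on `[0,1]` having at most `n` intervals of
monotonicity. -/
def MonoPieces (n : ℕ) (φ : ℝ → ℝ) : Prop :=
  ContinuousOn φ (Icc 0 1) ∧
    ∃ (k : ℕ) (t : ℕ → ℝ), k ≤ n ∧ t 0 = 0 ∧ t k = 1 ∧ (∀ i < k, t i < t (i + 1)) ∧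
      ∀ i < k, MonotoneOn φ (Icc (t i) (t (i + 1))) ∨ AntitoneOn φ (Icc (t i) (t (i + 1)))

/-- `M_n^2`: the plane curves `{(φ t, ψ t) : t ∈ [0,1]}` with `φ, ψ ∈ M_n`. -/
def Curves (n : ℕ) : Set (Set (ℝ × ℝ)) :=
  {γ | ∃ φ ψ : ℝ → ℝ, MonoPieces n φ ∧ MonoPieces n ψ ∧
    γ = (fun t : ℝ => (φ t, ψ t)) '' Icc (0 : ℝ) 1}

/-- `Z_D`: the nonempty compact connected subsets of the square `D = [a,b] × [a,b]`. -/
def Continua (a b : ℝ) : Set (Set (ℝ × ℝ)) :=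
  {F | F.Nonempty ∧ IsCompact F ∧ IsConnected F ∧ F ⊆ Icc a b ×ˢ Icc a b}

/-- `E(M_n^2; F)`: the infimum over `γ ∈ M_n^2` of the Hausdorff distance `r(F, γ)`, the plane
carrying the box (maximum) metric, which is Mathlib's metric of `ℝ × ℝ`. -/
noncomputable def E (n : ℕ) (F : Set (ℝ × ℝ)) : ℝ :=
  sInf ((fun γ => Metric.hausdorffDist F γ) '' Curves n)

/-- `E(M_n^2; Z_D)`: the supremum of `E(M_n^2; F)` over `F ∈ Z_D`. -/
noncomputable def EZ (n : ℕ) (a b : ℝ) : ℝ :=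
  sSup ((fun F => E n F) '' Continua a b)

end Pool.Agent.W_MP_cc6bdf_an
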