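import Mathlib
import Pool.Agent.W_MP_cc6bdf_an.Defs

set_option autoImplicit false

/-!
# MP_cc6bdf_an: the proofs

Upper bound: cut the square into `m × m` closed squares of side `2 ε`, `ε = (b - a) / (2 m)`.  The
squares meeting the continuum `F` form a connected graph (adjacency through `F`); a spanning tree
has a closed tour such that both coordinates reverse their direction at most `N ≤ m ^ 2` times: at
every square one first visits the subtree lying in the current direction of motion.

Lower bound: a comb with `m` vertical spines at distance `4 ε` and `2 m` horizontal teeth of length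
`2 ε` on each of them, at distance `2 ε`, `ε = (b - a) / (4 m)`.  The first coordinate of a curve at
Hausdorff distance less than `ε` has to alternate `4 m ^ 2 - 2` times.
-/

namespace Pool.Agent.W_MP_cc6bdf_an

open Set Filter Topology

/-! ### Direction words and reversal counts -/

/-- sign -/
def sg (b : Bool) : ℤ := if b then 1 else -1

/-- unit step; the first Bool is the axis (`true` = horizontal) and the second the sign. -/
def dir (m : Bool × Bool) : ℤ × ℤ := if m.1 then (sg m.2, 0) else (0, sg m.2)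

lemma dir_not (a b : Bool) : dir (a, !b) = - dir (a, b) := by
  cases a <;> cases b <;> simp [dir, sg]

/-- number of reversals of the moves along axis `ax`, starting in the state `s`. -/
def rv (ax : Bool) : Bool → List (Bool × Bool) → ℕ
  | _, [] => 0
  | s, m :: w => if m.1 = ax ∧ m.2 ≠ s then rv ax m.2 w + 1 else rv ax s w

lemma rv_state (ax : Bool) (w : List (Bool × Bool)) (s s' : Bool) :
    rv ax s w ≤ rv ax s' w + (if s = s' then 0 else 1) := by
  induction w generalizing s s' with
  | nil => simp [rv]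
  | cons m w ih =>
    obtain ⟨a, b⟩ := m
    have h1 := ih s s'
    have h2 := ih b s'
    have h3 := ih s b
    simp only [rv]
    cases a <;> cases b <;> cases s <;> cases s' <;> cases ax <;> simp_all <;> omega

/-- cost of a word, from state `s` to state `s'` -/
def cost (ax s : Bool) (w : List (Bool × Bool)) (s' : Bool) : ℕ := rv ax s (w ++ [(ax, s')])

lemma cost_append (ax s s' s'' : Bool) (u v : List (Bool × Bool)) :
    cost ax s (u ++ v) s'' ≤ cost ax s u s' + cost ax s' v s'' := by
  induction u generalizing s with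
  | nil =>
    have := rv_state ax (v ++ [(ax, s'')]) s s'
    simp only [cost, List.nil_append]
    refine this.trans ?_
    cases s <;> cases s' <;> simp [rv]
  | cons m u ih =>
    obtain ⟨a, b⟩ := m
    have h1 := ih s
    have h2 := ih b
    simp only [cost, List.cons_append, rv] at *
    split_ifs <;> omega

lemma rv_le_cost (ax s s' : Bool) (w : List (Bool × Bool)) : rv ax s w ≤ cost ax s w s' := by
  induction w generalizing s with
  | nil => simp [rv]
  | cons m u ih =>
    obtain ⟨a, b⟩ := m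
    have h1 := ih s
    have h2 := ih b
    simp only [cost, List.cons_append, rv] at *
    split_ifs <;> omega

lemma cost_nil (ax s s' : Bool) : cost ax s [] s' = if s = s' then 0 else 1 := by
  cases s <;> cases s' <;> simp [cost, rv]

/-- moves along the other axis do not count -/
lemma cost_other (ax s s' b b' : Bool) (w : List (Bool × Bool)) :
    cost ax s ((!ax, b) :: w ++ [(!ax, b')]) s' = cost ax s w s' := by
  have key : ∀ (w : List (Bool × Bool)) (s : Bool),
      rv ax s (w ++ [(!ax, b')] ++ [(ax, s')]) = rv ax s (w ++ [(ax, s')]) := by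
    intro w
    induction w with
    | nil => intro s; cases ax <;> simp [rv]
    | cons m u ih =>
      intro s
      simp only [List.cons_append, rv]
      rw [ih, ih]
  have := key w s
  simp only [cost, List.cons_append, rv]
  rw [if_neg (by cases ax <;> simp)]
  exact this

/-- entering in the current direction, leaving in the opposite one -/
lemma cost_same (ax s : Bool) (w : List (Bool × Bool)) :
    cost ax s ((ax, s) :: w ++ [(ax, !s)]) (!s) ≤ cost ax s w (!s) := by
  have key : ∀ (w : List (Bool × Bool)) (s t : Bool),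
      rv ax s (w ++ [(ax, t)] ++ [(ax, t)]) = rv ax s (w ++ [(ax, t)]) := by
    intro w
    induction w with
    | nil => intro s t; cases s <;> cases t <;> simp [rv]
    | cons m u ih =>
      intro s t
      simp only [List.cons_append, rv]
      rw [ih, ih]
  have := key w s (!s)
  simp only [cost, List.cons_append, rv]
  rw [if_neg (by simp)]
  exact this.le

/-! ### Walks -/

/-- endpoint of a walk -/
def endp : ℤ × ℤ → List (Bool × Bool) → ℤ × ℤ
  | p, [] => p
  | p, m :: w => endp (p + dir m) w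

/-- cells visited by a walk -/
def vis : ℤ × ℤ → List (Bool × Bool) → Set (ℤ × ℤ)
  | p, [] => {p}
  | p, m :: w => insert p (vis (p + dir m) w)

/-- all steps of the walk are edges of the graph -/
def okw (Adj : ℤ × ℤ → ℤ × ℤ → Prop) : ℤ × ℤ → List (Bool × Bool) → Prop
  | _, [] => True
  | p, m :: w => Adj p (p + dir m) ∧ okw Adj (p + dir m) w

lemma endp_append (p : ℤ × ℤ) (u v : List (Bool × Bool)) :
    endp p (u ++ v) = endp (endp p u) v := by
  induction u generalizing p with
  | nil => rfl
  | cons m u ih => simp only [List.cons_append, endp]; exact ih _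

lemma mem_vis_self (p : ℤ × ℤ) (u : List (Bool × Bool)) : p ∈ vis p u := by
  cases u <;> simp [vis]

lemma vis_append (p : ℤ × ℤ) (u v : List (Bool × Bool)) :
    vis p (u ++ v) = vis p u ∪ vis (endp p u) v := by
  induction u generalizing p with
  | nil =>
    simp only [List.nil_append, vis, endp]
    have := mem_vis_self p v
    ext z
    simp only [mem_union, mem_singleton_iff]
    constructor
    · intro h; exact Or.inr h
    · rintro (h | h)
      · rw [h]; exact this
      · exact h
  | cons m u ih =>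
    simp only [List.cons_append, vis, endp, ih]
    ext z
    simp only [mem_insert_iff, mem_union]
    tauto

lemma okw_append (Adj : ℤ × ℤ → ℤ × ℤ → Prop) (p : ℤ × ℤ) (u v : List (Bool × Bool)) :
    okw Adj p (u ++ v) ↔ okw Adj p u ∧ okw Adj (endp p u) v := by
  induction u generalizing p with
  | nil => simp [okw, endp]
  | cons m u ih => simp only [List.cons_append, okw, endp, ih]; tauto

/-! ### Grid trees -/

/-- grid trees; the children are indexed by the direction of the step -/
inductive GTree : Type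
  | nil : GTree
  | node (c : Bool × Bool → GTree) : GTree

namespace GTree

/-- the cells occupied by a tree with root at `p` -/
def cells : GTree → ℤ × ℤ → Finset (ℤ × ℤ)
  | nil, _ => ∅
  | node c, p => insert p (Finset.univ.biUnion fun m : Bool × Bool => (c m).cells (p + dir m))

/-- number of nodes -/
def size : GTree → ℕ
  | nil => 0
  | node c => 1 + ∑ m : Bool × Bool, (c m).size

/-- all edges of the tree are edges of the graph -/
def ok (Adj : ℤ × ℤ → ℤ × ℤ → Prop) : GTree → ℤ × ℤ → Prop
  | nil, _ => True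
  | node c, p => ∀ m : Bool × Bool, (c m = nil) ∨ (Adj p (p + dir m) ∧ (c m).ok Adj (p + dir m))

lemma mem_cells_self (c : Bool × Bool → GTree) (p : ℤ × ℤ) : p ∈ (node c).cells p := by
  simp [cells]

lemma root_mem {t : GTree} (ht : t ≠ nil) (p : ℤ × ℤ) : p ∈ t.cells p := by
  cases t with
  | nil => exact absurd rfl ht
  | node c => exact mem_cells_self c p

lemma card_cells_le (t : GTree) (p : ℤ × ℤ) : (t.cells p).card ≤ t.size := by
  induction t generalizing p with
  | nil => simp [cells]
  | node c ih =>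
    simp only [cells, size]
    refine (Finset.card_insert_le _ _).trans ?_
    have h1 : (Finset.univ.biUnion fun m : Bool × Bool => (c m).cells (p + dir m)).card ≤
        ∑ m : Bool × Bool, ((c m).cells (p + dir m)).card := Finset.card_biUnion_le
    have h2 : ∑ m : Bool × Bool, ((c m).cells (p + dir m)).card ≤ ∑ m : Bool × Bool, (c m).size :=
      Finset.sum_le_sum fun m _ => ih m _
    omega

lemma size_pos {t : GTree} (ht : t ≠ nil) : 1 ≤ t.size := by
  cases t with
  | nil => exact absurd rfl ht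
  | node c => simp [size]

lemma tight {c : Bool × Bool → GTree} {p : ℤ × ℤ}
    (h : ((node c).cells p).card = (node c).size) :
    (∀ m, p ∉ (c m).cells (p + dir m)) ∧
      ∀ m, ((c m).cells (p + dir m)).card = (c m).size := by
  have h1 : (Finset.univ.biUnion fun m : Bool × Bool => (c m).cells (p + dir m)).card ≤
      ∑ m : Bool × Bool, ((c m).cells (p + dir m)).card := Finset.card_biUnion_le
  have h2 : ∑ m : Bool × Bool, ((c m).cells (p + dir m)).card ≤ ∑ m : Bool × Bool, (c m).size :=
    Finset.sum_le_sum fun m _ => card_cells_le _ _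
  have h3 := Finset.card_insert_le p
    (Finset.univ.biUnion fun m : Bool × Bool => (c m).cells (p + dir m))
  simp only [cells, size] at h
  constructor
  · intro m hm
    have h4 : p ∈ (Finset.univ.biUnion fun m : Bool × Bool => (c m).cells (p + dir m)) := by
      simp only [Finset.mem_biUnion, Finset.mem_univ, true_and]
      exact ⟨m, hm⟩
    rw [Finset.insert_eq_of_mem h4] at h
    omega
  · have h5 : ∑ m : Bool × Bool, ((c m).cells (p + dir m)).card = ∑ m : Bool × Bool, (c m).size := by
      omega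
    have := (Finset.sum_eq_sum_iff_of_le (fun m _ => card_cells_le (c m) (p + dir m))).1 h5
    intro m
    exact this m (Finset.mem_univ m)

lemma insert_leaf (Adj : ℤ × ℤ → ℤ × ℤ → Prop) (t : GTree) (p u : ℤ × ℤ) (m : Bool × Bool)
    (hok : t.ok Adj p) (hu : u ∈ t.cells p) (hv : u + dir m ∉ t.cells p)
    (hadj : Adj u (u + dir m)) :
    ∃ t' : GTree, t' ≠ nil ∧ t'.ok Adj p ∧ t'.cells p = insert (u + dir m) (t.cells p) ∧
      t'.size = t.size + 1 := by
  induction t generalizing p with
  | nil => simp [cells] at hu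
  | node c ih =>
    by_cases hup : u = p
    · subst hup
      have hc : c m = nil := by
        by_contra hne
        apply hv
        simp only [cells, Finset.mem_insert, Finset.mem_biUnion, Finset.mem_univ, true_and]
        exact Or.inr ⟨m, root_mem hne _⟩
      refine ⟨node (Function.update c m (node fun _ => nil)), by simp, ?_, ?_, ?_⟩
      · intro m'
        by_cases hm : m' = m
        · subst hm
          right
          refine ⟨hadj, ?_⟩
          rw [Function.update_self]
          intro m''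
          exact Or.inl rfl
        · rw [Function.update_of_ne hm]
          exact hok m'
      · ext z
        simp only [cells, Finset.mem_insert, Finset.mem_biUnion, Finset.mem_univ, true_and]
        constructor
        · rintro (h | ⟨m', h⟩)
          · exact Or.inr (Or.inl h)
          · by_cases hm : m' = m
            · subst hm
              rw [Function.update_self] at h
              simp only [cells, Finset.mem_insert, Finset.mem_biUnion, Finset.mem_univ,
                true_and, Finset.notMem_empty, exists_false, or_false] at h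
              exact Or.inl h
            · rw [Function.update_of_ne hm] at h
              exact Or.inr (Or.inr ⟨m', h⟩)
        · rintro (h | h | ⟨m', h⟩)
          · refine Or.inr ⟨m, ?_⟩
            rw [Function.update_self, h]
            exact mem_cells_self _ _
          · exact Or.inl h
          · refine Or.inr ⟨m', ?_⟩
            by_cases hm : m' = m
            · subst hm
              rw [hc] at h
              simp [cells] at h
            · rw [Function.update_of_ne hm]
              exact h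
      · simp only [size]
        have h1 : ∑ x : Bool × Bool, (Function.update c m (node fun _ => nil) x).size =
            ∑ x : Bool × Bool, (c x).size + 1 := by
          rw [← Finset.add_sum_erase _ _ (Finset.mem_univ m), ← Finset.add_sum_erase _
            (fun x => (c x).size) (Finset.mem_univ m)]
          rw [Function.update_self]
          have h2 : ∑ x ∈ Finset.univ.erase m, (Function.update c m (node fun _ => nil) x).size =
              ∑ x ∈ Finset.univ.erase m, (c x).size := by
            apply Finset.sum_congr rfl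
            intro x hx
            rw [Function.update_of_ne (Finset.ne_of_mem_erase hx)]
          rw [h2]
          simp only [hc, size, Finset.sum_const_zero]
          omega
        omega
    · simp only [cells, Finset.mem_insert, Finset.mem_biUnion, Finset.mem_univ, true_and] at hu hv
      rcases hu with hu | ⟨m₀, hu⟩
      · exact absurd hu hup
      · have hne : c m₀ ≠ nil := by
          intro h0
          rw [h0] at hu
          simp [cells] at hu
        have hv' : u + dir m ∉ (c m₀).cells (p + dir m₀) := fun h => hv (Or.inr ⟨m₀, h⟩)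
        have hok' := (hok m₀).resolve_left hne
        obtain ⟨t', ht0, htok, htc, hts⟩ := ih m₀ (p + dir m₀) hok'.2 hu hv'
        refine ⟨node (Function.update c m₀ t'), by simp, ?_, ?_, ?_⟩
        · intro m'
          by_cases hm : m' = m₀
          · subst hm
            right
            refine ⟨hok'.1, ?_⟩
            rw [Function.update_self]
            exact htok
          · rw [Function.update_of_ne hm]
            exact hok m'
        · ext z
          simp only [cells, Finset.mem_insert, Finset.mem_biUnion, Finset.mem_univ, true_and]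
          constructor
          · rintro (h | ⟨m', h⟩)
            · exact Or.inr (Or.inl h)
            · by_cases hm : m' = m₀
              · subst hm
                rw [Function.update_self, htc, Finset.mem_insert] at h
                rcases h with h | h
                · exact Or.inl h
                · exact Or.inr (Or.inr ⟨_, h⟩)
              · rw [Function.update_of_ne hm] at h
                exact Or.inr (Or.inr ⟨m', h⟩)
          · rintro (h | h | ⟨m', h⟩)
            · refine Or.inr ⟨m₀, ?_⟩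
              rw [Function.update_self, htc, h]
              exact Finset.mem_insert_self _ _
            · exact Or.inl h
            · refine Or.inr ⟨m', ?_⟩
              by_cases hm : m' = m₀
              · subst hm
                rw [Function.update_self, htc]
                exact Finset.mem_insert_of_mem h
              · rw [Function.update_of_ne hm]
                exact h
        · simp only [size]
          have h1 : ∑ x : Bool × Bool, (Function.update c m₀ t' x).size =
              ∑ x : Bool × Bool, (c x).size + 1 := by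
            rw [← Finset.add_sum_erase _ _ (Finset.mem_univ m₀), ← Finset.add_sum_erase _
              (fun x => (c x).size) (Finset.mem_univ m₀)]
            rw [Function.update_self]
            have h2 : ∑ x ∈ Finset.univ.erase m₀, (Function.update c m₀ t' x).size =
                ∑ x ∈ Finset.univ.erase m₀, (c x).size := by
              apply Finset.sum_congr rfl
              intro x hx
              rw [Function.update_of_ne (Finset.ne_of_mem_erase hx)]
            rw [h2, hts]
            omega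
          omega

end GTree


lemma eq_not_of_ne' {a b : Bool} (h : a ≠ b) : a = !b := by
  cases a <;> cases b <;> simp_all

lemma sum_four (f : Bool × Bool → ℕ) (α σ τ : Bool) :
    ∑ m : Bool × Bool, f m = f (α, σ) + f (α, !σ) + f (!α, τ) + f (!α, !τ) := by
  rw [Fintype.sum_prod_type, Fintype.sum_bool, Fintype.sum_bool, Fintype.sum_bool]
  cases α <;> cases σ <;> cases τ <;> simp <;> ring

open GTree in
/-- the tour of a grid tree with few reversals in both axes -/
lemma tour (Adj : ℤ × ℤ → ℤ × ℤ → Prop) (hsymm : ∀ u v, Adj u v → Adj v u) (t : GTree) :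
    ∀ p : ℤ × ℤ, t ≠ GTree.nil → t.ok Adj p → (t.cells p).card = t.size →
    ∀ α σ τ : Bool, p + dir (α, !σ) ∉ t.cells p →
    ∃ W : List (Bool × Bool), endp p W = p ∧ okw Adj p W ∧ vis p W = (t.cells p : Set (ℤ × ℤ)) ∧
      cost α σ W (!σ) ≤ t.size ∧ cost (!α) τ W τ ≤ t.size := by
  induction t with
  | nil => intro p h; exact absurd rfl h
  | node c ih =>
    intro p _ hok hcard α σ τ hpar
    obtain ⟨hp, hs⟩ := tight hcard
    -- segments
    have seg : ∀ (a b τ' : Bool), ∃ W : List (Bool × Bool), endp p W = p ∧ okw Adj p W ∧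
        vis p W = insert p ((c (a, b)).cells (p + dir (a, b)) : Set (ℤ × ℤ)) ∧
        (c (a, b) = GTree.nil → W = []) ∧
        (c (a, b) ≠ GTree.nil → cost a b W (!b) ≤ (c (a, b)).size ∧
          cost (!a) τ' W τ' ≤ (c (a, b)).size) := by
      intro a b τ'
      by_cases hc : c (a, b) = GTree.nil
      · refine ⟨[], rfl, trivial, ?_, fun _ => rfl, fun h => absurd hc h⟩
        rw [hc]
        simp [vis, cells]
      · have hok' := (hok (a, b)).resolve_left hc
        have hback : p + dir (a, b) + dir (a, !b) = p := by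
          rw [dir_not]; abel
        obtain ⟨W, h1, h2, h3, h4, h5⟩ := ih (a, b) (p + dir (a, b)) hc hok'.2 (hs (a, b)) a b τ'
          (by rw [hback]; exact hp (a, b))
        refine ⟨(a, b) :: W ++ [(a, !b)], ?_, ?_, ?_, fun h => absurd h hc, fun _ => ⟨?_, ?_⟩⟩
        · rw [List.cons_append, endp, endp_append, h1]
          simp only [endp]
          exact hback
        · rw [List.cons_append, okw, okw_append, h1]
          refine ⟨hok'.1, h2, ?_, trivial⟩
          rw [hback]
          exact hsymm _ _ hok'.1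
        · rw [List.cons_append, vis, vis_append, h1, h3]
          simp only [vis, hback]
          have hm := root_mem hc (p + dir (a, b))
          ext z
          simp only [mem_insert_iff, mem_union, mem_singleton_iff, Finset.mem_coe]
          constructor
          · rintro (h | h | h | h)
            · exact Or.inl h
            · exact Or.inr h
            · rw [h]; exact Or.inr hm
            · exact Or.inl h
          · rintro (h | h)
            · exact Or.inl h
            · exact Or.inr (Or.inl h)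
        · exact (cost_same a b W).trans h4
        · have := cost_other (!a) τ' τ' b (!b) W
          rw [Bool.not_not] at this
          rw [this]
          exact h5
    obtain ⟨W1, e1, o1, v1, n1, c1⟩ := seg α σ τ
    obtain ⟨W2, e2, o2, v2, n2, c2⟩ := seg (!α) τ (!σ)
    obtain ⟨W3, e3, o3, v3, n3, c3⟩ := seg (!α) (!τ) (!σ)
    have hnil4 : c (α, !σ) = GTree.nil := by
      by_contra hne
      apply hpar
      simp only [cells, Finset.mem_insert, Finset.mem_biUnion, Finset.mem_univ, true_and]
      exact Or.inr ⟨(α, !σ), root_mem hne _⟩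
    have hsize : (node c).size = 1 + (c (α, σ)).size + (c (!α, τ)).size + (c (!α, !τ)).size := by
      have h4 : (c (α, !σ)).size = 0 := by rw [hnil4]; rfl
      simp only [size]
      rw [sum_four (fun m => (c m).size) α σ τ]
      omega
    refine ⟨W1 ++ W2 ++ W3, ?_, ?_, ?_, ?_, ?_⟩
    · rw [endp_append, endp_append, e1, e2, e3]
    · rw [okw_append, okw_append, endp_append, e1, e2]
      exact ⟨⟨o1, o2⟩, o3⟩
    · rw [vis_append, vis_append, endp_append, e1, e2, v1, v2, v3]
      ext z
      simp only [cells, Finset.coe_insert, Finset.coe_biUnion, Finset.coe_univ, mem_univ,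
        iUnion_true, mem_insert_iff, mem_union, Finset.mem_coe, mem_iUnion]
      constructor
      · rintro (((h | h) | (h | h)) | (h | h))
        · exact Or.inl h
        · exact Or.inr ⟨_, h⟩
        · exact Or.inl h
        · exact Or.inr ⟨_, h⟩
        · exact Or.inl h
        · exact Or.inr ⟨_, h⟩
      · rintro (h | ⟨⟨a, b⟩, h⟩)
        · exact Or.inl (Or.inl (Or.inl h))
        · by_cases h1 : a = α
          · subst h1
            by_cases h2 : b = σ
            · subst h2
              exact Or.inl (Or.inl (Or.inr h))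
            · have h3 : b = !σ := eq_not_of_ne' h2
              rw [h3, hnil4] at h
              simp [cells] at h
          · have h1' : a = !α := eq_not_of_ne' h1
            by_cases h2 : b = τ
            · rw [h1', h2] at h
              exact Or.inl (Or.inr (Or.inr h))
            · have h3 : b = !τ := eq_not_of_ne' h2
              rw [h1', h3] at h
              exact Or.inr (Or.inr h)
    · have A1 : cost α σ W1 (!σ) ≤ 1 + (c (α, σ)).size := by
        by_cases h : c (α, σ) = GTree.nil
        · rw [n1 h, cost_nil]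
          split_ifs <;> omega
        · have := (c1 h).1
          omega
      have A1' : c (α, σ) ≠ GTree.nil → cost α σ W1 (!σ) ≤ (c (α, σ)).size := fun h => (c1 h).1
      have A2 : cost α (!σ) W2 (!σ) ≤ (c (!α, τ)).size := by
        by_cases h : c (!α, τ) = GTree.nil
        · rw [n2 h, cost_nil]; simp
        · have := (c2 h).2
          rwa [Bool.not_not] at this
      have A3 : cost α (!σ) W3 (!σ) ≤ (c (!α, !τ)).size := by
        by_cases h : c (!α, !τ) = GTree.nil
        · rw [n3 h, cost_nil]; simp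
        · have := (c3 h).2
          rwa [Bool.not_not] at this
      have B1 := cost_append α σ (!σ) (!σ) (W1 ++ W2) W3
      have B2 := cost_append α σ (!σ) (!σ) W1 W2
      omega
    · have A1 : cost (!α) τ W1 τ ≤ (c (α, σ)).size := by
        by_cases h : c (α, σ) = GTree.nil
        · rw [n1 h, cost_nil]; simp
        · exact (c1 h).2
      have B1 := cost_append (!α) τ τ τ W1 (W2 ++ W3)
      have B2 := cost_append (!α) τ (!τ) τ W2 W3
      rw [List.append_assoc]
      by_cases h2 : c (!α, τ) = GTree.nil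
      · by_cases h3 : c (!α, !τ) = GTree.nil
        · rw [n2 h2, n3 h3] at B1 ⊢
          simp only [List.append_nil, cost_nil, if_true] at B1 ⊢
          omega
        · have A3 := (c3 h3).1
          rw [Bool.not_not] at A3
          have A2 : cost (!α) τ W2 (!τ) = 1 := by
            rw [n2 h2, cost_nil]; cases τ <;> simp
          omega
      · have A2 := (c2 h2).1
        by_cases h3 : c (!α, !τ) = GTree.nil
        · have A3 : cost (!α) (!τ) W3 τ = 1 := by
            rw [n3 h3, cost_nil]; cases τ <;> simp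
          omega
        · have A3 := (c3 h3).1
          rw [Bool.not_not] at A3
          omega


/-! ### Polygonal paths -/

/-- truncated ramp -/
noncomputable def ramp (t : ℝ) : ℝ := max 0 (min t 1)

lemma ramp_cont : Continuous ramp := by unfold ramp; fun_prop

lemma ramp_mono : Monotone ramp := fun _ _ h => max_le_max le_rfl (min_le_min h le_rfl)

lemma ramp_nonpos {t : ℝ} (h : t ≤ 0) : ramp t = 0 := by
  unfold ramp
  rw [max_eq_left]
  exact (min_le_left _ _).trans h

lemma ramp_one {t : ℝ} (h : 1 ≤ t) : ramp t = 1 := by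
  unfold ramp
  rw [min_eq_right h]
  simp

lemma ramp_nonneg (t : ℝ) : 0 ≤ ramp t := le_max_left _ _

lemma ramp_le_one (t : ℝ) : ramp t ≤ 1 := max_le zero_le_one (min_le_right _ _)

/-- component of a step -/
def comp (ax : Bool) (m : Bool × Bool) : ℤ := if m.1 = ax then sg m.2 else 0

lemma dir_eq (m : Bool × Bool) : dir m = (comp true m, comp false m) := by
  obtain ⟨a, b⟩ := m
  cases a <;> simp [dir, comp]

/-- displacement along axis `ax` of the polygonal path -/
noncomputable def G (ax : Bool) : List (Bool × Bool) → ℝ → ℝ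
  | [], _ => 0
  | m :: w, t => (comp ax m : ℝ) * ramp t + G ax w (t - 1)

lemma G_cont (ax : Bool) (w : List (Bool × Bool)) : Continuous (G ax w) := by
  induction w with
  | nil => exact continuous_const
  | cons m w ih =>
    have := ramp_cont
    change Continuous fun t => (comp ax m : ℝ) * ramp t + G ax w (t - 1)
    fun_prop

lemma G_nonpos (ax : Bool) (w : List (Bool × Bool)) {t : ℝ} (h : t ≤ 0) : G ax w t = 0 := by
  induction w generalizing t with
  | nil => rfl
  | cons m w ih =>
    change (comp ax m : ℝ) * ramp t + G ax w (t - 1) = 0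
    rw [ramp_nonpos h, ih (by linarith)]
    simp

/-- monotone or antitone according to a Bool -/
def MonoDir (s : Bool) (f : ℝ → ℝ) (S : Set ℝ) : Prop :=
  if s = true then MonotoneOn f S else AntitoneOn f S

lemma MonoDir.const {s : Bool} {f : ℝ → ℝ} {S : Set ℝ} {C : ℝ} (h : ∀ t ∈ S, f t = C) :
    MonoDir s f S := by
  unfold MonoDir
  split_ifs
  · intro x hx y hy _
    rw [h x hx, h y hy]
  · intro x hx y hy _
    rw [h x hx, h y hy]

/-- weakly increasing decompositions in monotone pieces of alternating direction, the first one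
having direction `s`. -/
inductive WP (f : ℝ → ℝ) : Bool → ℝ → ℝ → ℕ → Prop
  | one (s : Bool) (a b : ℝ) (h : a ≤ b) (hm : MonoDir s f (Icc a b)) : WP f s a b 1
  | cons (s : Bool) (a c b : ℝ) (k : ℕ) (h : a ≤ c) (hm : MonoDir s f (Icc a c))
      (ht : WP f (!s) c b k) : WP f s a b (k + 1)

lemma WP.shift {f f' : ℝ → ℝ} {s : Bool} {a b : ℝ} {k : ℕ} (C : ℝ) (h : WP f s a b k)
    (hf : ∀ t, a + 1 ≤ t → f' t = C + f (t - 1)) : WP f' s (a + 1) (b + 1) k := by
  have key : ∀ (s : Bool) (a c : ℝ), (∀ t, a + 1 ≤ t → f' t = C + f (t - 1)) →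
      MonoDir s f (Icc a c) → MonoDir s f' (Icc (a + 1) (c + 1)) := by
    intro s a c hf hm
    unfold MonoDir at *
    split_ifs at hm ⊢
    · intro x hx y hy hxy
      rw [hf x hx.1, hf y hy.1]
      have := hm (a := x - 1) ⟨by linarith [hx.1], by linarith [hx.2]⟩ (b := y - 1)
        ⟨by linarith [hy.1], by linarith [hy.2]⟩ (by linarith)
      linarith
    · intro x hx y hy hxy
      rw [hf x hx.1, hf y hy.1]
      have := hm (a := x - 1) ⟨by linarith [hx.1], by linarith [hx.2]⟩ (b := y - 1)
        ⟨by linarith [hy.1], by linarith [hy.2]⟩ (by linarith)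
      linarith
  induction h with
  | one s a b h hm => exact WP.one s _ _ (by linarith) (key s a b hf hm)
  | cons s a c b k h hm ht ih =>
    exact WP.cons s _ (c + 1) _ k (by linarith) (key s a c hf hm)
      (ih fun t ht' => hf t (by linarith))

lemma MonoDir.union {s : Bool} {f : ℝ → ℝ} {a c b : ℝ} (hac : a ≤ c) (hcb : c ≤ b)
    (h1 : MonoDir s f (Icc a c)) (h2 : MonoDir s f (Icc c b)) : MonoDir s f (Icc a b) := by
  unfold MonoDir at *
  have hu : Icc a b = Icc a c ∪ Icc c b := (Icc_union_Icc_eq_Icc hac hcb).symm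
  split_ifs at h1 h2 ⊢
  · rw [hu]
    exact h1.union_right h2 ⟨⟨hac, le_rfl⟩, fun x hx => hx.2⟩ ⟨⟨le_rfl, hcb⟩, fun x hx => hx.1⟩
  · rw [hu]
    exact h1.union_right h2 ⟨⟨hac, le_rfl⟩, fun x hx => hx.2⟩ ⟨⟨le_rfl, hcb⟩, fun x hx => hx.1⟩

lemma WP.extend {f : ℝ → ℝ} {s : Bool} {a c b : ℝ} {k : ℕ} (h : WP f s c b k) (hac : a ≤ c)
    (hm : MonoDir s f (Icc a c)) : WP f s a b k := by
  cases h with
  | one _ _ _ h1 hm1 => exact WP.one _ _ _ (hac.trans h1) (hm.union hac h1 hm1)
  | cons _ _ c' _ k h1 hm1 ht => exact WP.cons _ _ c' _ k (hac.trans h1) (hm.union hac h1 hm1) ht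

lemma G_WP (ax : Bool) (w : List (Bool × Bool)) (s : Bool) :
    WP (G ax w) s 0 (w.length + 1) (rv ax s w + 1) := by
  induction w generalizing s with
  | nil =>
    simp only [rv, List.length_nil, Nat.cast_zero, zero_add]
    exact WP.one s 0 1 zero_le_one (MonoDir.const (C := 0) fun t _ => rfl)
  | cons m w ih =>
    have hG : ∀ t, G ax (m :: w) t = (comp ax m : ℝ) * ramp t + G ax w (t - 1) := fun t => rfl
    have hG0 : ∀ t ∈ Icc (0 : ℝ) 1, G ax (m :: w) t = (comp ax m : ℝ) * ramp t := by
      intro t ht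
      rw [hG, G_nonpos ax w (by linarith [ht.2])]
      simp
    have hG1 : ∀ t, (0 : ℝ) + 1 ≤ t → G ax (m :: w) t = (comp ax m : ℝ) + G ax w (t - 1) := by
      intro t ht
      rw [hG, ramp_one (by linarith)]
      simp
    have hlen : (((m :: w).length : ℕ) : ℝ) + 1 = ((w.length : ℝ) + 1) + 1 := by
      simp
    rw [hlen]
    simp only [rv]
    by_cases hm : m.1 = ax ∧ m.2 ≠ s
    · rw [if_pos hm]
      have h1 := (ih m.2).shift _ hG1
      rw [zero_add] at h1
      have h2 : MonoDir m.2 (G ax (m :: w)) (Icc 0 1) := by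
        have hc : comp ax m = sg m.2 := by simp [comp, hm.1]
        unfold MonoDir
        split_ifs with hb
        · intro x hx y hy hxy
          rw [hG0 x hx, hG0 y hy, hc, hb]
          simp only [sg, if_true, Int.cast_one, one_mul]
          exact ramp_mono hxy
        · intro x hx y hy hxy
          rw [hG0 x hx, hG0 y hy, hc]
          simp only [sg, hb]
          have := ramp_mono hxy
          simp
          exact this
      have h3 := h1.extend zero_le_one h2
      have h4 : m.2 = !s := by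
        have := hm.2
        cases h5 : m.2 <;> cases h6 : s <;> simp_all
      rw [h4] at h3 ⊢
      exact WP.cons s 0 0 _ _ le_rfl (MonoDir.const (C := G ax (m :: w) 0) (fun t ht => by
        have : t = 0 := le_antisymm ht.2 ht.1
        rw [this])) h3
    · rw [if_neg hm]
      have h1 := (ih s).shift _ hG1
      rw [zero_add] at h1
      refine h1.extend zero_le_one ?_
      by_cases hax : m.1 = ax
      · have hb : m.2 = s := by
          by_contra h
          exact hm ⟨hax, h⟩
        have hc : comp ax m = sg s := by simp [comp, hax, hb]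
        unfold MonoDir
        split_ifs with hb
        · intro x hx y hy hxy
          rw [hG0 x hx, hG0 y hy, hc, hb]
          simp only [sg, if_true, Int.cast_one, one_mul]
          exact ramp_mono hxy
        · intro x hx y hy hxy
          rw [hG0 x hx, hG0 y hy, hc]
          simp only [sg, hb]
          have := ramp_mono hxy
          simp
          exact this
      · refine MonoDir.const (C := 0) fun t ht => ?_
        rw [hG0 t ht]
        simp [comp, hax]

lemma WP.scale {f f' : ℝ → ℝ} {s : Bool} {a b : ℝ} {k : ℕ} (A B K : ℝ) (hA : 0 < A) (hK : 0 < K)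
    (h : WP f s a b k) (hf : ∀ t, f' t = B + A * f (K * t)) : WP f' s (a / K) (b / K) k := by
  have key : ∀ (s : Bool) (a c : ℝ),
      MonoDir s f (Icc a c) → MonoDir s f' (Icc (a / K) (c / K)) := by
    intro s a c hm
    have hmem : ∀ x, x ∈ Icc (a / K) (c / K) → K * x ∈ Icc a c := by
      intro x hx
      constructor
      · have := hx.1
        rw [div_le_iff₀ hK] at this
        linarith
      · have := hx.2
        rw [le_div_iff₀ hK] at this
        linarith
    unfold MonoDir at *
    split_ifs at hm ⊢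
    · intro x hx y hy hxy
      rw [hf x, hf y]
      have := hm (hmem x hx) (hmem y hy) (by nlinarith)
      nlinarith
    · intro x hx y hy hxy
      rw [hf x, hf y]
      have := hm (hmem x hx) (hmem y hy) (by nlinarith)
      nlinarith
  induction h with
  | one s a b h hm => exact WP.one s _ _ (by gcongr) (key s a b hm)
  | cons s a c b k h hm ht ih =>
    exact WP.cons s _ (c / K) _ k (by gcongr) (key s a c hm) ih

lemma MonoDir.or {s : Bool} {f : ℝ → ℝ} {S : Set ℝ} (h : MonoDir s f S) :
    MonotoneOn f S ∨ AntitoneOn f S := by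
  unfold MonoDir at h
  split_ifs at h
  · exact Or.inl h
  · exact Or.inr h

lemma WP.strict {f : ℝ → ℝ} {s : Bool} {a b : ℝ} {k : ℕ} (h : WP f s a b k) :
    ∃ (k' : ℕ) (t : ℕ → ℝ), k' ≤ k ∧ t 0 = a ∧ t k' = b ∧ (∀ i < k', t i < t (i + 1)) ∧
      ∀ i < k', MonotoneOn f (Icc (t i) (t (i + 1))) ∨ AntitoneOn f (Icc (t i) (t (i + 1))) := by
  induction h with
  | one s a b h hm =>
    rcases eq_or_lt_of_le h with h0 | h0
    · exact ⟨0, fun _ => a, by omega, rfl, h0, fun i hi => by omega, fun i hi => by omega⟩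
    · refine ⟨1, fun i => if i = 0 then a else b, le_rfl, rfl, rfl, ?_, ?_⟩
      · intro i hi
        have : i = 0 := by omega
        subst this
        simpa using h0
      · intro i hi
        have : i = 0 := by omega
        subst this
        simpa using hm.or
  | cons s a c b k h hm ht ih =>
    obtain ⟨k', t, h1, h2, h3, h4, h5⟩ := ih
    rcases eq_or_lt_of_le h with h0 | h0
    · exact ⟨k', t, by omega, by rw [h2, h0], h3, h4, h5⟩
    · refine ⟨k' + 1, fun i => if i = 0 then a else t (i - 1), by omega, rfl, ?_, ?_, ?_⟩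
      · simpa using h3
      · intro i hi
        rcases Nat.eq_zero_or_pos i with h6 | h6
        · subst h6
          simpa [h2] using h0
        · obtain ⟨j, rfl⟩ : ∃ j, i = j + 1 := ⟨i - 1, by omega⟩
          simpa using h4 j (by omega)
      · intro i hi
        rcases Nat.eq_zero_or_pos i with h6 | h6
        · subst h6
          simpa [h2] using hm.or
        · obtain ⟨j, rfl⟩ : ∃ j, i = j + 1 := ⟨i - 1, by omega⟩
          simpa using h5 j (by omega)

lemma monoPieces_path (ax s : Bool) (w : List (Bool × Bool)) (A B : ℝ) (hA : 0 < A) (n : ℕ)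
    (hn : rv ax s w + 1 ≤ n) :
    MonoPieces n (fun t => B + A * G ax w ((w.length + 1) * t)) := by
  have hK : (0 : ℝ) < w.length + 1 := by positivity
  have h := ((G_WP ax w s).scale A B _ hA hK (f' := fun t => B + A * G ax w ((w.length + 1) * t))
    fun t => rfl).strict
  rw [zero_div, div_self hK.ne'] at h
  obtain ⟨k, t, h1, h2, h3, h4, h5⟩ := h
  refine ⟨?_, k, t, h1.trans hn, h2, h3, h4, h5⟩
  have := G_cont ax w
  apply Continuous.continuousOn
  fun_prop

lemma G_vis (w : List (Bool × Bool)) (p z : ℤ × ℤ) (hz : z ∈ vis p w) :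
    ∃ t ∈ Icc (0 : ℝ) w.length, (p.1 : ℝ) + G true w t = z.1 ∧ (p.2 : ℝ) + G false w t = z.2 := by
  induction w generalizing p with
  | nil =>
    simp only [vis, mem_singleton_iff] at hz
    subst hz
    exact ⟨0, by simp, by simp [G], by simp [G]⟩
  | cons m w ih =>
    simp only [vis, mem_insert_iff] at hz
    rcases hz with hz | hz
    · subst hz
      refine ⟨0, ⟨le_rfl, by positivity⟩, ?_, ?_⟩
      · rw [G_nonpos _ _ le_rfl]; simp
      · rw [G_nonpos _ _ le_rfl]; simp
    · obtain ⟨t, ht, h1, h2⟩ := ih (p + dir m) hz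
      refine ⟨t + 1, ⟨by linarith [ht.1], ?_⟩, ?_, ?_⟩
      · have := ht.2
        simp only [List.length_cons, Nat.cast_add, Nat.cast_one]
        linarith
      · change (p.1 : ℝ) + ((comp true m : ℝ) * ramp (t + 1) + G true w (t + 1 - 1)) = z.1
        rw [ramp_one (by linarith [ht.1]), ← h1, dir_eq]
        simp only [Prod.fst_add, Int.cast_add, add_sub_cancel_right]
        ring
      · change (p.2 : ℝ) + ((comp false m : ℝ) * ramp (t + 1) + G false w (t + 1 - 1)) = z.2
        rw [ramp_one (by linarith [ht.1]), ← h2, dir_eq]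
        simp only [Prod.snd_add, Int.cast_add, add_sub_cancel_right]
        ring

lemma G_near (Adj : ℤ × ℤ → ℤ × ℤ → Prop) (w : List (Bool × Bool)) (p : ℤ × ℤ)
    (hok : okw Adj p w) (t : ℝ) :
    ∃ u ∈ vis p w, ∃ v ∈ vis p w, (u = v ∨ Adj u v) ∧ ∃ c ∈ Icc (0 : ℝ) 1,
      (p.1 : ℝ) + G true w t = (1 - c) * u.1 + c * v.1 ∧
      (p.2 : ℝ) + G false w t = (1 - c) * u.2 + c * v.2 := by
  induction w generalizing p t with
  | nil =>
    refine ⟨p, by simp [vis], p, by simp [vis], Or.inl rfl, 0, by simp, by simp [G], by simp [G]⟩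
  | cons m w ih =>
    simp only [okw] at hok
    rcases le_total t 1 with ht | ht
    · refine ⟨p, by simp [vis], p + dir m, by simp [vis, mem_vis_self], Or.inr hok.1, ramp t,
        ⟨ramp_nonneg t, ramp_le_one t⟩, ?_, ?_⟩
      · change (p.1 : ℝ) + ((comp true m : ℝ) * ramp t + G true w (t - 1)) = _
        rw [G_nonpos _ _ (by linarith), dir_eq]
        simp only [Prod.fst_add, Int.cast_add]
        ring
      · change (p.2 : ℝ) + ((comp false m : ℝ) * ramp t + G false w (t - 1)) = _
        rw [G_nonpos _ _ (by linarith), dir_eq]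
        simp only [Prod.snd_add, Int.cast_add]
        ring
    · obtain ⟨u, hu, v, hv, huv, c, hc, h1, h2⟩ := ih (p + dir m) hok.2 (t - 1)
      refine ⟨u, by simp [vis, hu], v, by simp [vis, hv], huv, c, hc, ?_, ?_⟩
      · change (p.1 : ℝ) + ((comp true m : ℝ) * ramp t + G true w (t - 1)) = _
        rw [ramp_one ht, ← h1, dir_eq]
        simp only [Prod.fst_add, Int.cast_add]
        ring
      · change (p.2 : ℝ) + ((comp false m : ℝ) * ramp t + G false w (t - 1)) = _
        rw [ramp_one ht, ← h2, dir_eq]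
        simp only [Prod.snd_add, Int.cast_add]
        ring


/-! ### The grid of squares -/

/-- centre of a square of the grid -/
noncomputable def ctr (a ε : ℝ) (z : ℤ × ℤ) : ℝ × ℝ :=
  (a + (2 * (z.1 : ℝ) + 1) * ε, a + (2 * (z.2 : ℝ) + 1) * ε)

/-- closed square of side `2 ε` -/
noncomputable def cell (a ε : ℝ) (z : ℤ × ℤ) : Set (ℝ × ℝ) := Metric.closedBall (ctr a ε z) ε

lemma mem_cell {a ε : ℝ} {z : ℤ × ℤ} {q : ℝ × ℝ} :
    q ∈ cell a ε z ↔ |q.1 - (a + (2 * (z.1 : ℝ) + 1) * ε)| ≤ ε ∧
      |q.2 - (a + (2 * (z.2 : ℝ) + 1) * ε)| ≤ ε := by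
  rw [cell, Metric.mem_closedBall, Prod.dist_eq, max_le_iff, Real.dist_eq, Real.dist_eq]
  rfl

lemma cover_one {a ε x : ℝ} {m : ℕ} (hε : 0 < ε) (hx : x ∈ Icc a (a + 2 * m * ε)) (hm : 1 ≤ m) :
    ∃ i : ℤ, 0 ≤ i ∧ i < m ∧ |x - (a + (2 * (i : ℝ) + 1) * ε)| ≤ ε := by
  obtain ⟨h1, h2⟩ := hx
  rcases eq_or_lt_of_le h2 with h | h
  · refine ⟨(m : ℤ) - 1, by omega, by omega, ?_⟩
    rw [h]
    push_cast
    rw [abs_le]
    constructor <;> nlinarith
  · set y := (x - a) / (2 * ε) with hy
    have hxy : x = a + 2 * ε * y := by rw [hy]; field_simp; ring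
    have hy0 : 0 ≤ y := by rw [hy]; apply div_nonneg <;> linarith
    have hym : y < m := by
      rw [hy, div_lt_iff₀ (by linarith)]
      nlinarith
    refine ⟨⌊y⌋, Int.floor_nonneg.2 hy0, ?_, ?_⟩
    · rw [Int.floor_lt]
      exact_mod_cast hym
    · have h3 := Int.floor_le y
      have h4 := Int.lt_floor_add_one y
      rw [hxy, abs_le]
      constructor <;> nlinarith

lemma close_index {a ε x : ℝ} {i j : ℤ} (hε : 0 < ε)
    (h1 : |x - (a + (2 * (i : ℝ) + 1) * ε)| ≤ ε) (h2 : |x - (a + (2 * (j : ℝ) + 1) * ε)| ≤ ε) :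
    i = j ∨ i = j + 1 ∨ i = j - 1 := by
  rw [abs_le] at h1 h2
  have h3 : ((i : ℝ) - j) ≤ 1 := by
    by_contra h
    push Not at h
    nlinarith [mul_pos hε (sub_pos.2 h)]
  have h4 : ((j : ℝ) - i) ≤ 1 := by
    by_contra h
    push Not at h
    nlinarith [mul_pos hε (sub_pos.2 h)]
  have h5 : i - j ≤ 1 := by exact_mod_cast h3
  have h6 : j - i ≤ 1 := by exact_mod_cast h4
  omega

open Classical in
/-- squares meeting `F` -/
noncomputable def sq (a ε : ℝ) (m : ℕ) (F : Set (ℝ × ℝ)) : Finset (ℤ × ℤ) :=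
  (Finset.Ico (0 : ℤ) m ×ˢ Finset.Ico (0 : ℤ) m).filter fun z => (F ∩ cell a ε z).Nonempty

lemma card_sq_le (a ε : ℝ) (m : ℕ) (F : Set (ℝ × ℝ)) : (sq a ε m F).card ≤ m ^ 2 := by
  classical
  unfold sq
  refine (Finset.card_filter_le _ _).trans ?_
  rw [Finset.card_product, Int.card_Ico]
  simp [pow_two]

lemma mem_sq {a ε : ℝ} {m : ℕ} {F : Set (ℝ × ℝ)} {z : ℤ × ℤ} :
    z ∈ sq a ε m F ↔ ((0 ≤ z.1 ∧ z.1 < m) ∧ (0 ≤ z.2 ∧ z.2 < m)) ∧ (F ∩ cell a ε z).Nonempty := by
  simp [sq]

lemma cover_sq {a b ε : ℝ} {m : ℕ} {F : Set (ℝ × ℝ)} (hε : 0 < ε) (hb : b = a + 2 * m * ε)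
    (hm : 1 ≤ m) (hF : F ⊆ Icc a b ×ˢ Icc a b) {q : ℝ × ℝ} (hq : q ∈ F) :
    ∃ z ∈ sq a ε m F, q ∈ cell a ε z := by
  obtain ⟨h1, h2⟩ := hF hq
  rw [hb] at h1 h2
  obtain ⟨i, hi0, him, hi⟩ := cover_one hε h1 hm
  obtain ⟨j, hj0, hjm, hj⟩ := cover_one hε h2 hm
  have hc : q ∈ cell a ε (i, j) := mem_cell.2 ⟨hi, hj⟩
  exact ⟨(i, j), mem_sq.2 ⟨⟨⟨hi0, him⟩, hj0, hjm⟩, q, hq, hc⟩, hc⟩

/-- adjacency of squares through `F` -/
def SqAdj (a ε : ℝ) (m : ℕ) (F : Set (ℝ × ℝ)) (u v : ℤ × ℤ) : Prop :=
  u ∈ sq a ε m F ∧ v ∈ sq a ε m F ∧ (F ∩ (cell a ε u ∩ cell a ε v)).Nonempty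

lemma exists_edge {a b ε : ℝ} {m : ℕ} {F : Set (ℝ × ℝ)} (hε : 0 < ε) (hb : b = a + 2 * m * ε)
    (hm : 1 ≤ m) (hF : F ⊆ Icc a b ×ˢ Icc a b) (hconn : IsConnected F)
    (C : Finset (ℤ × ℤ)) (hC : C ⊆ sq a ε m F) (hne : C.Nonempty) (hne' : C ≠ sq a ε m F) :
    ∃ u ∈ C, ∃ k : Bool × Bool, u + dir k ∉ C ∧ SqAdj a ε m F u (u + dir k) := by
  have hclosed : ∀ T : Finset (ℤ × ℤ), IsClosed (⋃ z ∈ T, cell a ε z) := by
    intro T
    exact T.finite_toSet.isClosed_biUnion fun z _ => Metric.isClosed_closedBall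
  have h1 := isPreconnected_closed_iff.1 hconn.isPreconnected (⋃ z ∈ C, cell a ε z)
    (⋃ z ∈ sq a ε m F \ C, cell a ε z) (hclosed C) (hclosed _) ?_ ?_ ?_
  · obtain ⟨q, hqF, hq1, hq2⟩ := h1
    simp only [mem_iUnion, exists_prop] at hq1 hq2
    obtain ⟨u, hu, hqu⟩ := hq1
    obtain ⟨v, hv, hqv⟩ := hq2
    rw [Finset.mem_sdiff] at hv
    have hu' := hC hu
    have hqu' := mem_cell.1 hqu
    have hqv' := mem_cell.1 hqv
    have hw : q ∈ cell a ε (u.1, v.2) := mem_cell.2 ⟨hqu'.1, hqv'.2⟩
    have hws : (u.1, v.2) ∈ sq a ε m F := by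
      rw [mem_sq] at hu' ⊢
      have hv' := mem_sq.1 hv.1
      exact ⟨⟨hu'.1.1, hv'.1.2⟩, q, hqF, hw⟩
    by_cases hwC : (u.1, v.2) ∈ C
    · -- go horizontally from `w` to `v`
      rcases close_index hε hqu'.1 hqv'.1 with h | h | h
      · exfalso
        apply hv.2
        have : v = (u.1, v.2) := by rw [h]
        rw [this]
        exact hwC
      · refine ⟨_, hwC, (true, false), ?_, ?_⟩
        · have : (u.1, v.2) + dir (true, false) = v := by
            rw [h]; simp [dir, sg]
          rw [this]; exact hv.2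
        · have : (u.1, v.2) + dir (true, false) = v := by
            rw [h]; simp [dir, sg]
          rw [this]; exact ⟨hws, hv.1, q, hqF, hw, hqv⟩
      · refine ⟨_, hwC, (true, true), ?_, ?_⟩
        · have : (u.1, v.2) + dir (true, true) = v := by
            rw [h]; simp [dir, sg]
          rw [this]; exact hv.2
        · have : (u.1, v.2) + dir (true, true) = v := by
            rw [h]; simp [dir, sg]
          rw [this]; exact ⟨hws, hv.1, q, hqF, hw, hqv⟩
    · -- go vertically from `u` to `w`
      rcases close_index hε hqu'.2 hqv'.2 with h | h | h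
      · exfalso
        apply hwC
        have : (u.1, v.2) = u := by rw [← h]
        rw [this]
        exact hu
      · have : u + dir (false, false) = (u.1, v.2) := by
          ext <;> simp [dir, sg, h]
        refine ⟨u, hu, (false, false), ?_, ?_⟩
        · rw [this]; exact hwC
        · rw [this]; exact ⟨hu', hws, q, hqF, hqu, hw⟩
      · have : u + dir (false, true) = (u.1, v.2) := by
          ext <;> simp [dir, sg, h]
        refine ⟨u, hu, (false, true), ?_, ?_⟩
        · rw [this]; exact hwC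
        · rw [this]; exact ⟨hu', hws, q, hqF, hqu, hw⟩
  · intro q hq
    obtain ⟨z, hz, hqz⟩ := cover_sq hε hb hm hF hq
    by_cases h : z ∈ C
    · left; simp only [mem_iUnion, exists_prop]; exact ⟨z, h, hqz⟩
    · right; simp only [mem_iUnion, exists_prop]; exact ⟨z, Finset.mem_sdiff.2 ⟨hz, h⟩, hqz⟩
  · obtain ⟨z, hz⟩ := hne
    obtain ⟨q, hq1, hq2⟩ := (mem_sq.1 (hC hz)).2
    refine ⟨q, hq1, ?_⟩
    simp only [mem_iUnion, exists_prop]; exact ⟨z, hz, hq2⟩
  · obtain ⟨z, hz, hzC⟩ : ∃ z ∈ sq a ε m F, z ∉ C := by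
      by_contra h
      push Not at h
      exact hne' (Finset.Subset.antisymm hC h)
    obtain ⟨q, hq1, hq2⟩ := (mem_sq.1 hz).2
    refine ⟨q, hq1, ?_⟩
    simp only [mem_iUnion, exists_prop]; exact ⟨z, Finset.mem_sdiff.2 ⟨hz, hzC⟩, hq2⟩

lemma exists_tree {a b ε : ℝ} {m : ℕ} {F : Set (ℝ × ℝ)} (hε : 0 < ε) (hb : b = a + 2 * m * ε)
    (hm : 1 ≤ m) (hF : F ⊆ Icc a b ×ˢ Icc a b) (hconn : IsConnected F)
    (p : ℤ × ℤ) (hp : p ∈ sq a ε m F) :
    ∃ t : GTree, t ≠ GTree.nil ∧ t.ok (SqAdj a ε m F) p ∧ t.cells p = sq a ε m F ∧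
      t.size = (sq a ε m F).card := by
  have key : ∀ k : ℕ, 1 ≤ k → k ≤ (sq a ε m F).card →
      ∃ t : GTree, t ≠ GTree.nil ∧ t.ok (SqAdj a ε m F) p ∧ t.cells p ⊆ sq a ε m F ∧
        t.size = k ∧ (t.cells p).card = k := by
    intro k hk
    induction k, hk using Nat.le_induction with
    | base =>
      intro _
      refine ⟨GTree.node fun _ => GTree.nil, by simp, fun _ => Or.inl rfl, ?_, ?_, ?_⟩
      · simp only [GTree.cells]
        intro z hz
        simp at hz
        rw [hz]; exact hp
      · simp [GTree.size]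
      · have : (Finset.univ.biUnion fun _ : Bool × Bool => (∅ : Finset (ℤ × ℤ))) = ∅ := by
          ext z; simp
        simp [GTree.cells, this]
    | succ k hk ih =>
      intro hle
      obtain ⟨t, h1, h2, h3, h4, h5⟩ := ih (by omega)
      have hne : (t.cells p) ≠ sq a ε m F := by
        intro h
        rw [h] at h5
        omega
      obtain ⟨u, hu, d, hd, hadj⟩ := exists_edge hε hb hm hF hconn (t.cells p) h3
        ⟨p, GTree.root_mem h1 p⟩ hne
      obtain ⟨t', g1, g2, g3, g4⟩ := GTree.insert_leaf _ t p u d h2 hu hd hadj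
      refine ⟨t', g1, g2, ?_, by omega, ?_⟩
      · rw [g3]
        intro z hz
        rcases Finset.mem_insert.1 hz with hz | hz
        · rw [hz]; exact hadj.2.1
        · exact h3 hz
      · rw [g3, Finset.card_insert_of_notMem hd, h5]
  obtain ⟨t, h1, h2, h3, h4, h5⟩ := key (sq a ε m F).card
    (Finset.card_pos.2 ⟨p, hp⟩) le_rfl
  exact ⟨t, h1, h2, Finset.eq_of_subset_of_card_le h3 h5.ge, h4⟩

/-- The upper bound for one continuum. -/
lemma E_le {a b : ℝ} (hab : a < b) {m n : ℕ} (hm : 1 ≤ m) (hn : m ^ 2 + 1 ≤ n)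
    {F : Set (ℝ × ℝ)} (hF : F ∈ Continua a b) : E n F ≤ (b - a) / (2 * m) := by
  obtain ⟨hFne, hFc, hFconn, hFD⟩ := hF
  set ε := (b - a) / (2 * m) with hεdef
  have hm' : (0 : ℝ) < m := by exact_mod_cast hm
  have hε : 0 < ε := by rw [hεdef]; apply div_pos <;> linarith
  have hb : b = a + 2 * m * ε := by rw [hεdef]; field_simp; ring
  have hsne : (sq a ε m F).Nonempty := by
    obtain ⟨q, hq⟩ := hFne
    obtain ⟨z, hz, _⟩ := cover_sq hε hb hm hFD hq
    exact ⟨z, hz⟩
  obtain ⟨p, hp, hpmin⟩ := Finset.exists_min_image (sq a ε m F) (fun z => z.2) hsne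
  obtain ⟨t, ht0, htok, htc, hts⟩ := exists_tree hε hb hm hFD hFconn p hp
  have hsymm : ∀ u v, SqAdj a ε m F u v → SqAdj a ε m F v u := by
    rintro u v ⟨h1, h2, h3⟩
    exact ⟨h2, h1, by rwa [inter_comm (cell a ε v)]⟩
  obtain ⟨W, hW1, hW2, hW3, hW4, hW5⟩ := tour (SqAdj a ε m F) hsymm t p ht0 htok
    (by rw [htc, hts]) false true true (by
      rw [htc]
      intro h
      have := hpmin _ h
      simp [dir, sg] at this)
  rw [htc] at hW3
  have hN : t.size ≤ m ^ 2 := by rw [hts]; exact card_sq_le _ _ _ _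
  have hx : MonoPieces n (fun s => (a + (2 * (p.1 : ℝ) + 1) * ε) +
      (2 * ε) * G true W ((W.length + 1) * s)) := by
    refine monoPieces_path true true W _ _ (by linarith) n ?_
    have := rv_le_cost true true true W
    simp only [Bool.not_false] at hW5
    omega
  have hy : MonoPieces n (fun s => (a + (2 * (p.2 : ℝ) + 1) * ε) +
      (2 * ε) * G false W ((W.length + 1) * s)) := by
    refine monoPieces_path false true W _ _ (by linarith) n ?_
    have := rv_le_cost false true false W
    simp only [Bool.not_true] at hW4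
    omega
  set γ : Set (ℝ × ℝ) := (fun s : ℝ => ((a + (2 * (p.1 : ℝ) + 1) * ε) +
      (2 * ε) * G true W ((W.length + 1) * s), (a + (2 * (p.2 : ℝ) + 1) * ε) +
      (2 * ε) * G false W ((W.length + 1) * s))) '' Icc (0 : ℝ) 1 with hγ
  have hγmem : γ ∈ Curves n := ⟨_, _, hx, hy, rfl⟩
  have hbdd : BddBelow ((fun γ => Metric.hausdorffDist F γ) '' Curves n) :=
    ⟨0, by rintro _ ⟨γ, _, rfl⟩; exact Metric.hausdorffDist_nonneg⟩
  refine (csInf_le hbdd ⟨γ, hγmem, rfl⟩).trans ?_
  refine Metric.hausdorffDist_le_of_mem_dist hε.le ?_ ?_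
  · intro q hq
    obtain ⟨z, hz, hqz⟩ := cover_sq hε hb hm hFD hq
    have hzv : z ∈ vis p W := by rw [hW3]; exact hz
    obtain ⟨s, hs, h1, h2⟩ := G_vis W p z hzv
    refine ⟨ctr a ε z, ?_, ?_⟩
    · rw [hγ]
      have hK : (0 : ℝ) < W.length + 1 := by positivity
      refine ⟨s / (W.length + 1), ⟨div_nonneg hs.1 hK.le, ?_⟩, ?_⟩
      · rw [div_le_one hK]; linarith [hs.2]
      · have h3 : ((W.length : ℝ) + 1) * (s / (W.length + 1)) = s := by field_simp
        simp only [h3, ctr]
        rw [← h1, ← h2]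
        ext
        · simp only; ring
        · simp only; ring
    · exact Metric.mem_closedBall.1 hqz
  · rintro _ ⟨s, hs, rfl⟩
    obtain ⟨u, hu, v, hv, huv, c, hc, h1, h2⟩ := G_near (SqAdj a ε m F) W p hW2
      ((W.length + 1) * s)
    rw [hW3] at hu hv
    have hpt : ((a + (2 * (p.1 : ℝ) + 1) * ε) +
      (2 * ε) * G true W ((W.length + 1) * s), (a + (2 * (p.2 : ℝ) + 1) * ε) +
      (2 * ε) * G false W ((W.length + 1) * s)) = (1 - c) • ctr a ε u + c • ctr a ε v := by
      ext
      · simp only [ctr, Prod.fst_add, Prod.smul_fst, smul_eq_mul]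
        have : (a + (2 * (p.1 : ℝ) + 1) * ε) + (2 * ε) * G true W ((W.length + 1) * s) =
          a + (2 * ((p.1 : ℝ) + G true W ((W.length + 1) * s)) + 1) * ε := by ring
        rw [this, h1]
        ring
      · simp only [ctr, Prod.snd_add, Prod.smul_snd, smul_eq_mul]
        have : (a + (2 * (p.2 : ℝ) + 1) * ε) + (2 * ε) * G false W ((W.length + 1) * s) =
          a + (2 * ((p.2 : ℝ) + G false W ((W.length + 1) * s)) + 1) * ε := by ring
        rw [this, h2]
        ring
    obtain ⟨q, hqF, hqu, hqv⟩ : (F ∩ (cell a ε u ∩ cell a ε v)).Nonempty := by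
      rcases huv with huv | huv
      · subst huv
        obtain ⟨q, h3, h4⟩ := (mem_sq.1 hu).2
        exact ⟨q, h3, h4, h4⟩
      · exact huv.2.2
    refine ⟨q, hqF, ?_⟩
    beta_reduce
    rw [hpt]
    have h3 : ctr a ε u ∈ Metric.closedBall q ε := by
      rw [Metric.mem_closedBall, dist_comm]; exact Metric.mem_closedBall.1 hqu
    have h4 : ctr a ε v ∈ Metric.closedBall q ε := by
      rw [Metric.mem_closedBall, dist_comm]; exact Metric.mem_closedBall.1 hqv
    exact Metric.mem_closedBall.1 ((convex_closedBall q ε) h3 h4 (by linarith [hc.2]) hc.1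
      (by ring))


/-! ### Zigzags -/

/-- alternating sequences of values of `φ`, starting at a high value at a time `≥ lo`, whose last
time is `x` (a high one if the Bool is `true`), with `M` alternations -/
inductive Zig (φ : ℝ → ℝ) (lo : ℝ) : Bool → ℝ → ℕ → Prop
  | start (x : ℝ) (h : lo ≤ x) : Zig φ lo true x 0
  | down (x y : ℝ) (M : ℕ) (h : Zig φ lo true x M) (hxy : x < y) (hφ : φ y < φ x) :
      Zig φ lo false y (M + 1)
  | up (x y : ℝ) (M : ℕ) (h : Zig φ lo false x M) (hxy : x < y) (hφ : φ x < φ y) :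
      Zig φ lo true y (M + 1)

lemma Zig.lo_le {φ : ℝ → ℝ} {lo : ℝ} {b : Bool} {x : ℝ} {M : ℕ} (h : Zig φ lo b x M) :
    lo ≤ x := by
  induction h with
  | start x h => exact h
  | down x y M h hxy hφ ih => linarith
  | up x y M h hxy hφ ih => linarith

lemma Zig.le {φ : ℝ → ℝ} {lo : ℝ} {t : ℕ → ℝ} (ht0 : t 0 = lo) (k : ℕ)
    (hp : ∀ i < k, MonotoneOn φ (Icc (t i) (t (i + 1))) ∨ AntitoneOn φ (Icc (t i) (t (i + 1)))) :
    ∀ (b : Bool) (x : ℝ) (M : ℕ), Zig φ lo b x M → x ≤ t k → M ≤ k := by
  induction k with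
  | zero =>
    intro b x M h hx
    rw [ht0] at hx
    cases h with
    | start x h => exact le_rfl
    | down x' y M h hxy hφ => have := h.lo_le; linarith
    | up x' y M h hxy hφ => have := h.lo_le; linarith
  | succ k ih =>
    have ih' := ih fun i hi => hp i (by omega)
    have hlast := hp k (by omega)
    intro b x M h hx
    rcases le_or_gt x (t k) with hxk | hxk
    · have := ih' b x M h hxk
      omega
    · cases h with
      | start x h => exact Nat.zero_le _
      | down x' y M' h hxy hφ =>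
        rcases le_or_gt x' (t k) with h1 | h1
        · have := ih' _ _ _ h h1
          omega
        · have hanti : AntitoneOn φ (Icc (t k) (t (k + 1))) := by
            rcases hlast with h2 | h2
            · exfalso
              have := h2 ⟨h1.le, by linarith⟩ ⟨hxk.le, hx⟩ hxy.le
              linarith
            · exact h2
          cases h with
          | start x h => omega
          | up x'' y M'' h hxy' hφ' =>
            have h3 : x'' ≤ t k := by
              by_contra h4
              push Not at h4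
              have := hanti ⟨h4.le, by linarith⟩ ⟨h1.le, by linarith⟩ hxy'.le
              linarith
            have h5 := hanti ⟨le_rfl, by linarith⟩ ⟨h1.le, by linarith⟩ h1.le
            have h6 : x'' < t k := by
              rcases eq_or_lt_of_le h3 with h7 | h7
              · rw [h7] at hφ'; linarith
              · exact h7
            have := ih' _ _ _ (Zig.up x'' (t k) M'' h h6 (by linarith)) le_rfl
            omega
      | up x' y M' h hxy hφ =>
        rcases le_or_gt x' (t k) with h1 | h1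
        · have := ih' _ _ _ h h1
          omega
        · have hmono : MonotoneOn φ (Icc (t k) (t (k + 1))) := by
            rcases hlast with h2 | h2
            · exact h2
            · exfalso
              have := h2 ⟨h1.le, by linarith⟩ ⟨hxk.le, hx⟩ hxy.le
              linarith
          cases h with
          | down x'' y M'' h hxy' hφ' =>
            have h3 : x'' ≤ t k := by
              by_contra h4
              push Not at h4
              have := hmono ⟨h4.le, by linarith⟩ ⟨h1.le, by linarith⟩ hxy'.le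
              linarith
            have h5 := hmono ⟨le_rfl, by linarith⟩ ⟨h1.le, by linarith⟩ h1.le
            have h6 : x'' < t k := by
              rcases eq_or_lt_of_le h3 with h7 | h7
              · rw [h7] at hφ'; linarith
              · exact h7
            have := ih' _ _ _ (Zig.down x'' (t k) M'' h h6 (by linarith)) le_rfl
            omega

lemma zig_of_finset {φ : ℝ → ℝ} {lo : ℝ} (V : Finset ℝ) (hlo : ∀ v ∈ V, lo ≤ v)
    (hV : ∀ v ∈ V, ∀ v' ∈ V, v < v' → ∃ s, v < s ∧ s < v' ∧ φ s < φ v ∧ φ s < φ v') :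
    V.Nonempty → ∃ x ∈ V, (∀ y ∈ V, y ≤ x) ∧ Zig φ lo true x (2 * V.card - 2) := by
  induction V using Finset.induction_on_max with
  | empty => intro h; exact absurd h (by simp)
  | insert a V ha ih =>
    intro _
    refine ⟨a, Finset.mem_insert_self _ _, ?_, ?_⟩
    · intro y hy
      rcases Finset.mem_insert.1 hy with h | h
      · exact h.le
      · exact (ha y h).le
    · have hna : a ∉ V := fun h => lt_irrefl _ (ha a h)
      rw [Finset.card_insert_of_notMem hna]
      rcases V.eq_empty_or_nonempty with h | h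
      · subst h
        simp only [Finset.card_empty]
        exact Zig.start a (hlo a (Finset.mem_insert_self _ _))
      · obtain ⟨x, hx, hmax, hz⟩ := ih (fun v hv => hlo v (Finset.mem_insert_of_mem hv))
          (fun v hv v' hv' => hV v (Finset.mem_insert_of_mem hv) v' (Finset.mem_insert_of_mem hv'))
          h
        obtain ⟨s, h1, h2, h3, h4⟩ := hV x (Finset.mem_insert_of_mem hx) a
          (Finset.mem_insert_self _ _) (ha x hx)
        have hc : 1 ≤ V.card := Finset.card_pos.2 h
        have := Zig.up s a _ (Zig.down x s _ hz h1 h3) h2 h4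
        have h5 : 2 * (V.card + 1) - 2 = 2 * V.card - 2 + 1 + 1 := by omega
        rw [h5]
        exact this

lemma card_le_pieces {φ : ℝ → ℝ} {n : ℕ} (hφ : MonoPieces n φ) (V : Finset ℝ)
    (hV01 : ∀ v ∈ V, v ∈ Icc (0 : ℝ) 1)
    (hV : ∀ v ∈ V, ∀ v' ∈ V, v < v' → ∃ s, v < s ∧ s < v' ∧ φ s < φ v ∧ φ s < φ v') :
    2 * V.card ≤ n + 2 := by
  rcases V.eq_empty_or_nonempty with h | h
  · subst h; simp
  · obtain ⟨_, k, t, h1, h2, h3, _, h5⟩ := hφ
    obtain ⟨x, hx, _, hz⟩ := zig_of_finset (lo := 0) V (fun v hv => (hV01 v hv).1) hV h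
    have := Zig.le h2 k h5 _ _ _ hz (by rw [h3]; exact (hV01 x hx).2)
    omega

/-! ### The comb -/

/-- a tooth of the comb, together with its spine and the base -/
def piece (a b ε : ℝ) (i j : ℕ) : Set (ℝ × ℝ) :=
  (Icc a b ×ˢ {a}) ∪ ({a + 4 * i * ε} ×ˢ Icc a b) ∪
    (Icc (a + 4 * i * ε) (a + 4 * i * ε + 2 * ε) ×ˢ {a + 2 * (j + 1) * ε})

/-- the comb -/
def comb (a b ε : ℝ) (m : ℕ) : Set (ℝ × ℝ) :=
  ⋃ k : Fin m × Fin (2 * m), piece a b ε k.1 k.2

lemma cast_fin_le {m : ℕ} (i : Fin m) : ((i : ℕ) : ℝ) + 1 ≤ m := by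
  exact_mod_cast i.2

lemma comb_mem {a b ε : ℝ} {m : ℕ} (hm : 1 ≤ m) (hab : a < b) (hε : 0 < ε)
    (hb : b = a + 4 * m * ε) : comb a b ε m ∈ Continua a b := by
  have hm' : (1 : ℝ) ≤ m := by exact_mod_cast hm
  have hx : ∀ i : Fin m, a ≤ a + 4 * (i : ℕ) * ε ∧ a + 4 * (i : ℕ) * ε + 4 * ε ≤ b := by
    intro i
    have h1 := cast_fin_le i
    have h2 : (0 : ℝ) ≤ (i : ℕ) := Nat.cast_nonneg _
    constructor
    · nlinarith [mul_nonneg h2 hε.le]
    · rw [hb]; nlinarith
  have hy : ∀ j : Fin (2 * m), a ≤ a + 2 * ((j : ℕ) + 1) * ε ∧ a + 2 * ((j : ℕ) + 1) * ε ≤ b := by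
    intro j
    have h1 := cast_fin_le j
    have h2 : (0 : ℝ) ≤ (j : ℕ) := Nat.cast_nonneg _
    push_cast at h1
    constructor
    · nlinarith [mul_nonneg h2 hε.le]
    · rw [hb]; nlinarith
  have hne : Nonempty (Fin m × Fin (2 * m)) := ⟨(⟨0, by omega⟩, ⟨0, by omega⟩)⟩
  have haa : ∀ k : Fin m × Fin (2 * m), (a, a) ∈ piece a b ε k.1 k.2 := by
    intro k
    left; left
    exact ⟨⟨le_rfl, hab.le⟩, rfl⟩
  have hcn : (comb a b ε m).Nonempty := by
    obtain ⟨k⟩ := hne
    exact ⟨(a, a), mem_iUnion.2 ⟨k, haa k⟩⟩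
  refine ⟨hcn, ?_, ⟨hcn, ?_⟩, ?_⟩
  · refine isCompact_iUnion fun k => ?_
    exact ((isCompact_Icc.prod isCompact_singleton).union
      (isCompact_singleton.prod isCompact_Icc)).union (isCompact_Icc.prod isCompact_singleton)
  · refine isPreconnected_iUnion ⟨(a, a), mem_iInter.2 haa⟩ fun k => ?_
    have h1 : IsPreconnected (Icc a b ×ˢ ({a} : Set ℝ)) :=
      isPreconnected_Icc.prod isPreconnected_singleton
    have h2 : IsPreconnected (({a + 4 * ((k.1 : ℕ) : ℝ) * ε} : Set ℝ) ×ˢ Icc a b) :=
      isPreconnected_singleton.prod isPreconnected_Icc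
    have h3 : IsPreconnected (Icc (a + 4 * ((k.1 : ℕ) : ℝ) * ε)
        (a + 4 * ((k.1 : ℕ) : ℝ) * ε + 2 * ε) ×ˢ ({a + 2 * (((k.2 : ℕ) : ℝ) + 1) * ε} : Set ℝ)) :=
      isPreconnected_Icc.prod isPreconnected_singleton
    have hxk := hx k.1
    have hyk := hy k.2
    refine IsPreconnected.union (a + 4 * ((k.1 : ℕ) : ℝ) * ε, a + 2 * (((k.2 : ℕ) : ℝ) + 1) * ε)
      ?_ ?_ (IsPreconnected.union (a + 4 * ((k.1 : ℕ) : ℝ) * ε, a) ?_ ?_ h1 h2) h3
    · right; exact ⟨rfl, hyk⟩
    · exact ⟨⟨le_rfl, by linarith⟩, rfl⟩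
    · exact ⟨⟨hxk.1, by linarith [hxk.2]⟩, rfl⟩
    · exact ⟨rfl, le_rfl, hab.le⟩
  · intro q hq
    obtain ⟨k, hk⟩ := mem_iUnion.1 hq
    have hxk := hx k.1
    have hyk := hy k.2
    rcases hk with (⟨h1, h2⟩ | ⟨h1, h2⟩) | ⟨h1, h2⟩
    · rw [mem_singleton_iff] at h2
      exact ⟨h1, by rw [h2]; exact ⟨le_rfl, hab.le⟩⟩
    · rw [mem_singleton_iff] at h1
      exact ⟨by rw [h1]; exact ⟨hxk.1, by linarith [hxk.2]⟩, h2⟩
    · rw [mem_singleton_iff] at h2
      exact ⟨⟨by linarith [h1.1], by linarith [h1.2, hxk.2]⟩, by rw [h2]; exact hyk⟩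

/-- points on the relative boundary of a tooth region are not near the comb -/
lemma boundary {a b ε : ℝ} {m : ℕ} (hε : 0 < ε) (i j : ℕ) (p : ℝ × ℝ)
    (h1 : a + 4 * i * ε + ε < p.1) (h2 : p.1 ≤ a + 4 * i * ε + 3 * ε)
    (h3 : |p.2 - (a + 2 * (j + 1) * ε)| ≤ ε)
    (h4 : p.1 = a + 4 * i * ε + 3 * ε ∨ |p.2 - (a + 2 * (j + 1) * ε)| = ε)
    (q : ℝ × ℝ) (hq : q ∈ comb a b ε m) : ¬ dist p q < ε := by
  intro hd
  rw [Prod.dist_eq, max_lt_iff, Real.dist_eq, Real.dist_eq, abs_lt, abs_lt] at hd
  obtain ⟨⟨d1, d2⟩, d3, d4⟩ := hd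
  have h3' := abs_le.1 h3
  have hj0 : (0 : ℝ) ≤ j := Nat.cast_nonneg j
  obtain ⟨k, hk⟩ := mem_iUnion.1 hq
  rcases hk with (⟨e1, e2⟩ | ⟨e1, e2⟩) | ⟨e1, e2⟩
  · rw [mem_singleton_iff] at e2
    nlinarith [mul_nonneg hj0 hε.le, h3'.1]
  · rw [mem_singleton_iff] at e1
    rw [e1] at d1 d2
    have f1 : (i : ℝ) < (k.1 : ℕ) := by
      by_contra h
      push Not at h
      nlinarith
    have f2 : ((k.1 : ℕ) : ℝ) < i + 1 := by
      by_contra h
      push Not at h
      nlinarith
    have f1' : i < (k.1 : ℕ) := by exact_mod_cast f1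
    have f2' : (k.1 : ℕ) < i + 1 := by exact_mod_cast f2
    omega
  · rw [mem_singleton_iff] at e2
    obtain ⟨e3, e4⟩ := e1
    have f1 : ((k.1 : ℕ) : ℝ) < i + 1 := by
      by_contra h
      push Not at h
      nlinarith
    have f2 : (i : ℝ) < (k.1 : ℕ) + 1 := by
      by_contra h
      push Not at h
      nlinarith
    have f1' : (k.1 : ℕ) < i + 1 := by exact_mod_cast f1
    have f2' : i < (k.1 : ℕ) + 1 := by exact_mod_cast f2
    have f3 : (k.1 : ℕ) = i := by omega
    rw [f3] at e3 e4
    rcases h4 with h4 | h4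
    · linarith
    · rw [e2] at d3 d4
      have g1 : (j : ℝ) < (k.2 : ℕ) + 1 := by
        by_contra h
        push Not at h
        nlinarith [h3'.1, h3'.2]
      have g2 : ((k.2 : ℕ) : ℝ) < j + 1 := by
        by_contra h
        push Not at h
        nlinarith [h3'.1, h3'.2]
      have g1' : j < (k.2 : ℕ) + 1 := by exact_mod_cast g1
      have g2' : (k.2 : ℕ) < j + 1 := by exact_mod_cast g2
      have g3 : (k.2 : ℕ) = j := by omega
      rw [g3] at d3 d4
      have : |p.2 - (a + 2 * (j + 1) * ε)| < ε := abs_lt.2 ⟨d3, d4⟩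
      linarith

lemma exit {a b ε : ℝ} {m : ℕ} (hε : 0 < ε) {φ ψ : ℝ → ℝ} (hφ : ContinuousOn φ (Icc 0 1))
    (hψ : ContinuousOn ψ (Icc 0 1))
    (hnear : ∀ s ∈ Icc (0 : ℝ) 1, ∃ q ∈ comb a b ε m, dist (φ s, ψ s) q < ε)
    {i j i' j' : ℕ} (hne : (i, j) ≠ (i', j')) (hii : i ≤ i') {s s' : ℝ} (hs : s ∈ Icc (0 : ℝ) 1)
    (hs' : s' ∈ Icc (0 : ℝ) 1)
    (h1 : |φ s - (a + 4 * i * ε + 2 * ε)| < ε) (h2 : |ψ s - (a + 2 * (j + 1) * ε)| < ε)
    (h1' : |φ s' - (a + 4 * i' * ε + 2 * ε)| < ε) (h2' : |ψ s' - (a + 2 * (j' + 1) * ε)| < ε) :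
    ∃ r ∈ uIcc s s', φ r ≤ a + 4 * i * ε + ε := by
  by_contra hcon
  push Not at hcon
  have hsub : uIcc s s' ⊆ Icc (0 : ℝ) 1 := by
    intro x hx
    rw [mem_uIcc] at hx
    rcases hx with hx | hx
    · exact ⟨by linarith [hs.1, hx.1], by linarith [hs'.2, hx.2]⟩
    · exact ⟨by linarith [hs'.1, hx.1], by linarith [hs.2, hx.2]⟩
  set H : ℝ → ℝ := fun r => max (φ r - (a + 4 * i * ε + 3 * ε))
    (|ψ r - (a + 2 * (j + 1) * ε)| - ε) with hH
  have hHc : ContinuousOn H (uIcc s s') := by
    have c1 := hφ.mono hsub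
    have c2 := hψ.mono hsub
    exact ContinuousOn.sup (c1.sub continuousOn_const)
      (((c2.sub continuousOn_const).abs).sub continuousOn_const)
  have hHs : H s ≤ 0 := by
    simp only [hH]
    refine max_le ?_ ?_
    · have := (abs_lt.1 h1).2; linarith
    · linarith
  have hHs' : 0 ≤ H s' := by
    simp only [hH]
    rcases eq_or_lt_of_le hii with h | h
    · subst h
      have hjj : j ≠ j' := fun h => hne (by rw [h])
      refine le_max_of_le_right ?_
      have h3 := abs_lt.1 h2'
      rcases lt_or_gt_of_ne hjj with h4 | h4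
      · have h5 : (j : ℝ) + 1 ≤ j' := by exact_mod_cast h4
        have h6 : ε ≤ ψ s' - (a + 2 * (j + 1) * ε) := by nlinarith [h3.1]
        have := le_abs_self (ψ s' - (a + 2 * (j + 1) * ε))
        linarith
      · have h5 : (j' : ℝ) + 1 ≤ j := by exact_mod_cast h4
        have h6 : ε ≤ -(ψ s' - (a + 2 * (j + 1) * ε)) := by nlinarith [h3.2]
        have := neg_le_abs (ψ s' - (a + 2 * (j + 1) * ε))
        linarith
    · refine le_max_of_le_left ?_
      have h5 : (i : ℝ) + 1 ≤ i' := by exact_mod_cast h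
      have h3 := abs_lt.1 h1'
      nlinarith [h3.1]
  have h0 : (0 : ℝ) ∈ uIcc (H s) (H s') := by
    rw [mem_uIcc]; left; exact ⟨hHs, hHs'⟩
  obtain ⟨r, hr, hr0⟩ := intermediate_value_uIcc hHc h0
  have hr1 := hcon r hr
  simp only [hH] at hr0
  have e1 : φ r - (a + 4 * i * ε + 3 * ε) ≤ 0 := hr0 ▸ le_max_left _ _
  have e2 : |ψ r - (a + 2 * (j + 1) * ε)| - ε ≤ 0 := hr0 ▸ le_max_right _ _
  have e3 : φ r = a + 4 * i * ε + 3 * ε ∨ |ψ r - (a + 2 * (j + 1) * ε)| = ε := by
    rcases max_choice (φ r - (a + 4 * i * ε + 3 * ε)) (|ψ r - (a + 2 * (j + 1) * ε)| - ε) with h | h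
    · left; rw [h] at hr0; linarith
    · right; rw [h] at hr0; linarith
  obtain ⟨q, hq, hd⟩ := hnear r (hsub hr)
  exact boundary hε i j (φ r, ψ r) hr1 (by simp only; linarith) (by simp only; linarith) e3 q hq hd


/-- The lower bound for the comb. -/
lemma le_E {a b : ℝ} (hab : a < b) {m n : ℕ} (hm : 1 ≤ m) (hn1 : 1 ≤ n)
    (hn : n + 3 ≤ 4 * m ^ 2) :
    (b - a) / (4 * m) ≤ E n (comb a b ((b - a) / (4 * m)) m) := by
  set ε := (b - a) / (4 * m) with hεdef
  have hm' : (0 : ℝ) < m := by exact_mod_cast hm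
  have hε : 0 < ε := by rw [hεdef]; apply div_pos <;> linarith
  have hb : b = a + 4 * m * ε := by rw [hεdef]; field_simp; ring
  have hF := comb_mem hm hab hε hb
  have hcurve : (Curves n).Nonempty := by
    have h : MonoPieces n (fun _ => (0 : ℝ)) := by
      refine ⟨continuousOn_const, 1, fun i => (i : ℝ), hn1, by simp, by simp, ?_, ?_⟩
      · intro i _; push_cast; linarith
      · intro i _; left; intro x _ y _ _; exact le_rfl
    exact ⟨_, _, _, h, h, rfl⟩
  refine le_csInf (hcurve.image _) ?_
  rintro _ ⟨γ, ⟨φ, ψ, hφ, hψ, rfl⟩, rfl⟩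
  by_contra hlt
  push Not at hlt
  set γ : Set (ℝ × ℝ) := (fun t : ℝ => (φ t, ψ t)) '' Icc (0 : ℝ) 1 with hγ
  have hφc := hφ.1
  have hψc := hψ.1
  have hγc : IsCompact γ := isCompact_Icc.image_of_continuousOn (hφc.prodMk hψc)
  have hγne : γ.Nonempty := ⟨_, 0, ⟨le_rfl, zero_le_one⟩, rfl⟩
  have hfin : Metric.hausdorffEDist (comb a b ε m) γ ≠ ⊤ :=
    Metric.hausdorffEDist_ne_top_of_nonempty_of_bounded hF.1 hγne hF.2.1.isBounded hγc.isBounded
  have hnear : ∀ s ∈ Icc (0 : ℝ) 1, ∃ q ∈ comb a b ε m, dist (φ s, ψ s) q < ε := by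
    intro s hs
    have h1 : (φ s, ψ s) ∈ γ := ⟨s, hs, rfl⟩
    rw [Metric.hausdorffDist_comm] at hlt
    rw [Metric.hausdorffEDist_comm] at hfin
    exact Metric.exists_dist_lt_of_hausdorffDist_lt h1 hlt hfin
  -- visiting times
  have hvisit : ∀ k : Fin m × Fin (2 * m), ∃ s ∈ Icc (0 : ℝ) 1,
      |φ s - (a + 4 * (k.1 : ℕ) * ε + 2 * ε)| < ε ∧ |ψ s - (a + 2 * ((k.2 : ℕ) + 1) * ε)| < ε := by
    intro k
    have h1 : (a + 4 * ((k.1 : ℕ) : ℝ) * ε + 2 * ε, a + 2 * (((k.2 : ℕ) : ℝ) + 1) * ε) ∈
        comb a b ε m := by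
      refine mem_iUnion.2 ⟨k, Or.inr ⟨⟨?_, le_rfl⟩, rfl⟩⟩
      simp only
      linarith
    obtain ⟨y, ⟨s, hs, rfl⟩, hd⟩ := Metric.exists_dist_lt_of_hausdorffDist_lt h1 hlt hfin
    rw [dist_comm, Prod.dist_eq, max_lt_iff, Real.dist_eq, Real.dist_eq] at hd
    exact ⟨s, hs, hd⟩
  choose T hT01 hTφ hTψ using hvisit
  have hsep : ∀ k k' : Fin m × Fin (2 * m), k ≠ k' →
      ∃ r ∈ uIcc (T k) (T k'), φ r < φ (T k) ∧ φ r < φ (T k') := by
    have main : ∀ k k' : Fin m × Fin (2 * m), k ≠ k' → (k.1 : ℕ) ≤ k'.1 →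
        ∃ r ∈ uIcc (T k) (T k'), φ r < φ (T k) ∧ φ r < φ (T k') := by
      intro k k' hne hle
      have hne' : ((k.1 : ℕ), (k.2 : ℕ)) ≠ ((k'.1 : ℕ), (k'.2 : ℕ)) := by
        intro h
        rw [Prod.mk.injEq] at h
        exact hne (Prod.ext (Fin.ext h.1) (Fin.ext h.2))
      obtain ⟨r, hr, hr'⟩ := exit hε hφc hψc hnear hne' hle (hT01 k) (hT01 k') (hTφ k) (hTψ k)
        (hTφ k') (hTψ k')
      refine ⟨r, hr, ?_, ?_⟩
      · have := (abs_lt.1 (hTφ k)).1
        linarith
      · have h1 := (abs_lt.1 (hTφ k')).1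
        have h2 : ((k.1 : ℕ) : ℝ) ≤ (k'.1 : ℕ) := by exact_mod_cast hle
        nlinarith
    intro k k' hne
    rcases le_total (k.1 : ℕ) k'.1 with h | h
    · exact main k k' hne h
    · obtain ⟨r, hr, h1, h2⟩ := main k' k hne.symm h
      exact ⟨r, by rwa [uIcc_comm], h2, h1⟩
  have hTinj : Function.Injective T := by
    intro k k' hkk
    by_contra hne
    obtain ⟨r, hr, h1, h2⟩ := hsep k k' hne
    rw [hkk, uIcc_self, mem_singleton_iff] at hr
    rw [hr] at h2
    exact lt_irrefl _ h2
  classical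
  set V : Finset ℝ := Finset.univ.image T with hV
  have hVcard : V.card = 2 * m ^ 2 := by
    rw [hV, Finset.card_image_of_injective _ hTinj, Finset.card_univ, Fintype.card_prod,
      Fintype.card_fin, Fintype.card_fin]
    ring
  have := card_le_pieces hφ V ?_ ?_
  · rw [hVcard] at this
    nlinarith [Nat.one_le_pow 2 m (by omega)]
  · intro v hv
    obtain ⟨k, _, rfl⟩ := Finset.mem_image.1 hv
    exact hT01 k
  · intro v hv v' hv' hlt'
    obtain ⟨k, _, rfl⟩ := Finset.mem_image.1 hv
    obtain ⟨k', _, rfl⟩ := Finset.mem_image.1 hv'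
    have hne : k ≠ k' := fun h => by rw [h] at hlt'; exact lt_irrefl _ hlt'
    obtain ⟨r, hr, h1, h2⟩ := hsep k k' hne
    rw [uIcc_of_le hlt'.le] at hr
    refine ⟨r, ?_, ?_, h1, h2⟩
    · rcases eq_or_lt_of_le hr.1 with h | h
      · rw [← h] at h1; exact absurd h1 (lt_irrefl _)
      · exact h
    · rcases eq_or_lt_of_le hr.2 with h | h
      · rw [h] at h2; exact absurd h2 (lt_irrefl _)
      · exact h

lemma continua_nonempty {a b : ℝ} (hab : a < b) : (Continua a b).Nonempty := by
  refine ⟨{(a, a)}, singleton_nonempty _, isCompact_singleton, isConnected_singleton, ?_⟩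
  intro q hq
  rw [mem_singleton_iff] at hq
  rw [hq]
  exact ⟨⟨le_rfl, hab.le⟩, le_rfl, hab.le⟩

lemma EZ_le {a b : ℝ} (hab : a < b) {m n : ℕ} (hm : 1 ≤ m) (hn : m ^ 2 + 1 ≤ n) :
    EZ n a b ≤ (b - a) / (2 * m) := by
  refine csSup_le ((continua_nonempty hab).image _) ?_
  rintro _ ⟨F, hF, rfl⟩
  exact E_le hab hm hn hF

lemma le_EZ {a b : ℝ} (hab : a < b) {m n : ℕ} (hm : 1 ≤ m) (hn2 : 2 ≤ n)
    (hn : n + 3 ≤ 4 * m ^ 2) : (b - a) / (4 * m) ≤ EZ n a b := by
  refine (le_E hab hm (by omega) hn).trans ?_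
  refine le_csSup ⟨(b - a) / (2 * (1 : ℕ)), ?_⟩ ?_
  · rintro _ ⟨F, hF, rfl⟩
    exact E_le hab le_rfl (by omega) hF
  · refine ⟨_, comb_mem hm hab ?_ ?_, rfl⟩
    · have hm' : (0 : ℝ) < m := by exact_mod_cast hm
      apply div_pos <;> linarith
    · have hm' : (0 : ℝ) < m := by exact_mod_cast hm
      field_simp
      ring

lemma tendsto_main {a b : ℝ} (hab : a < b) :
    Tendsto (fun n : ℕ => Real.sqrt n * EZ n a b / (b - a)) atTop (𝓝 (1 / 2)) := by
  have hba : 0 < b - a := by linarith
  have hsq : Tendsto (fun n : ℕ => Real.sqrt (n : ℝ)) atTop atTop :=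
    Real.tendsto_sqrt_atTop.comp tendsto_natCast_atTop_atTop
  have hup : Tendsto (fun n : ℕ => 1 / 2 + (Real.sqrt n - 2)⁻¹) atTop (𝓝 (1 / 2)) := by
    have h1 : Tendsto (fun n : ℕ => Real.sqrt n - 2) atTop atTop :=
      tendsto_atTop_add_const_right _ _ hsq
    have h2 := h1.inv_tendsto_atTop
    have h3 : Tendsto (fun n : ℕ => (1 / 2 : ℝ) + (Real.sqrt n - 2)⁻¹) atTop (𝓝 (1 / 2 + 0)) :=
      tendsto_const_nhds.add h2
    simpa using h3
  have hlow : Tendsto (fun n : ℕ => 1 / 2 - 2 * (Real.sqrt n + 4)⁻¹) atTop (𝓝 (1 / 2)) := by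
    have h1 : Tendsto (fun n : ℕ => Real.sqrt n + 4) atTop atTop :=
      tendsto_atTop_add_const_right _ _ hsq
    have h2 := h1.inv_tendsto_atTop
    have h3 : Tendsto (fun n : ℕ => (1 / 2 : ℝ) - 2 * (Real.sqrt n + 4)⁻¹) atTop
        (𝓝 (1 / 2 - 2 * 0)) := tendsto_const_nhds.sub (tendsto_const_nhds.mul h2)
    simpa using h3
  refine tendsto_of_tendsto_of_tendsto_of_le_of_le' hlow hup ?_ ?_
  · filter_upwards [eventually_ge_atTop 2] with n hn
    set m := Nat.sqrt (n + 3) / 2 + 1 with hm
    have hm1 : 1 ≤ m := by omega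
    have h1 : n + 3 ≤ 4 * m ^ 2 := by
      have h2 := Nat.lt_succ_sqrt (n + 3)
      have h3 : Nat.sqrt (n + 3) + 1 ≤ 2 * m := by omega
      have h4 : (Nat.sqrt (n + 3) + 1) * (Nat.sqrt (n + 3) + 1) ≤ (2 * m) * (2 * m) :=
        Nat.mul_le_mul h3 h3
      have h5 : (Nat.sqrt (n + 3)).succ = Nat.sqrt (n + 3) + 1 := rfl
      rw [h5] at h2
      nlinarith
    have h2 := le_EZ hab hm1 hn h1
    have hs0 : 0 ≤ Real.sqrt n := Real.sqrt_nonneg _
    have hm0 : (0 : ℝ) < m := by exact_mod_cast hm1
    have hmle : 2 * (m : ℝ) ≤ Real.sqrt n + 4 := by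
      have h3 : 2 * m ≤ Nat.sqrt (n + 3) + 2 := by omega
      have h4 : (2 * (m : ℝ)) ≤ (Nat.sqrt (n + 3) : ℝ) + 2 := by exact_mod_cast h3
      have h5 : (Nat.sqrt (n + 3) : ℝ) ≤ Real.sqrt n + 2 := by
        have h6 : ((Nat.sqrt (n + 3) : ℕ) : ℝ) ^ 2 ≤ (n : ℝ) + 3 := by
          have := Nat.sqrt_le' (n + 3)
          exact_mod_cast this
        have h7 : Real.sqrt n ^ 2 = n := Real.sq_sqrt (Nat.cast_nonneg n)
        nlinarith
      linarith
    have h3 : Real.sqrt n * ((b - a) / (4 * m)) / (b - a) ≤ Real.sqrt n * EZ n a b / (b - a) := by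
      gcongr
    refine le_trans ?_ h3
    have h4 : Real.sqrt n * ((b - a) / (4 * m)) / (b - a) = Real.sqrt n / (4 * m) := by
      field_simp
    rw [h4]
    have h5 : (1 : ℝ) / 2 - 2 * (Real.sqrt n + 4)⁻¹ = Real.sqrt n / (2 * (Real.sqrt n + 4)) := by
      field_simp
      ring
    rw [h5]
    exact div_le_div_of_nonneg_left hs0 (by linarith) (by linarith)
  · filter_upwards [eventually_ge_atTop 10] with n hn
    set m := Nat.sqrt (n - 1) with hm
    have hm1 : 1 ≤ m := by
      rw [hm, Nat.le_sqrt]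
      omega
    have h1 : m ^ 2 + 1 ≤ n := by
      have := Nat.sqrt_le' (n - 1)
      rw [← hm] at this
      omega
    have h2 := EZ_le hab hm1 h1
    have hs0 : 0 ≤ Real.sqrt n := Real.sqrt_nonneg _
    have hm0 : (0 : ℝ) < m := by exact_mod_cast hm1
    have h7 : Real.sqrt n ^ 2 = n := Real.sq_sqrt (Nat.cast_nonneg n)
    have hs2 : 3 ≤ Real.sqrt n := by
      have : (10 : ℝ) ≤ n := by exact_mod_cast hn
      nlinarith
    have hmge : Real.sqrt n - 2 ≤ (m : ℝ) := by
      have h3 : n < (m + 1) * (m + 1) + 1 := by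
        have := Nat.lt_succ_sqrt (n - 1)
        rw [← hm] at this
        have h5 : m.succ = m + 1 := rfl
        rw [h5] at this
        omega
      have h4 : (n : ℝ) < ((m : ℝ) + 1) * (m + 1) + 1 := by exact_mod_cast h3
      nlinarith
    have h3 : Real.sqrt n * EZ n a b / (b - a) ≤ Real.sqrt n * ((b - a) / (2 * m)) / (b - a) := by
      gcongr
    refine h3.trans ?_
    have h4 : Real.sqrt n * ((b - a) / (2 * m)) / (b - a) = Real.sqrt n / (2 * m) := by
      field_simp
    rw [h4]
    have hpos : 0 < Real.sqrt n - 2 := by linarith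
    have h5 : (1 : ℝ) / 2 + (Real.sqrt n - 2)⁻¹ = Real.sqrt n / (2 * (Real.sqrt n - 2)) := by
      field_simp
      ring
    rw [h5]
    exact div_le_div_of_nonneg_left hs0 (by linarith) (by linarith)

end Pool.Agent.W_MP_cc6bdf_an
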